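import Mathlib
import Pool.Agent.Run7.h683.PE.P3

set_option autoImplicit false

/-!
# `π + e` and `π - e` in random bases: joint incompressibility, uniformly in the unknown number

In the forms `π + e`, `π - e` and more generally in `n + r` independent integer forms in unknown
numbers `t 1, …, t n` and in numbers `x 1, …, x r` with a known measure of linear independence (for
instance powers of `e`), replace the `t k` (such as `π`) by arbitrary real numbers. For almost all
bases `b ≤ B` it is true for ALL real `t` and all forms of small height at once that the digits of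
the forms are not described by any of the arrays of a given set `W` of at most `q ^ ((r - ε) K)`
arrays.
-/

namespace Pool.Agent.Results.MP_363d4d_nt.IncompressibleInRandomBases

open Filter

/-- the digit at the place `j ≥ 1` after the point in the base `b` expansion of `y` -/
noncomputable def digit (b : ℕ) (y : ℝ) (j : ℕ) : ℕ := (⌊y * (b : ℝ) ^ j⌋ % (b : ℤ)).toNat

/-- the possible digits `0, …, b - 1` are divided into `q` classes of consecutive digits, numbered
`0, …, q - 1`: the digit `u` is in the class `w` when `w b / q ≤ u < (w + 1) b / q` -/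
def part (q b u : ℕ) : ℕ := q * u / b

/-- the classes of the digits of `y` at the places `2, …, K + 1` in base `b` form the word `u` -/
def HasWord (b : ℕ) {K q : ℕ} (y : ℝ) (u : Fin K → Fin q) : Prop :=
  ∀ j : Fin K, part q b (digit b y ((j : ℕ) + 2)) = u j

/-- `x` is algebraic over the ring `ℤ[z]`, equivalently over the field `ℚ(z)` -/
def AlgebraicOver (z x : ℝ) : Prop := IsAlgebraic (Algebra.adjoin ℤ ({z} : Set ℝ)) x

/-- the height of an integer polynomial: the largest absolute value of a coefficient -/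
def height (P : Polynomial ℤ) : ℕ := P.support.sup fun i => (P.coeff i).natAbs

/-- Mahler's U-numbers: for some degree `d` and every exponent `w` there are infinitely many
`P ∈ ℤ[X]` of degree at most `d` with `0 < |P(x)| ≤ (height P) ^ (-w)` -/
def UNumber (x : ℝ) : Prop :=
  ∃ d : ℕ, ∀ w : ℕ, {P : Polynomial ℤ | P.natDegree ≤ d ∧ 0 < |Polynomial.aeval x P| ∧
    |Polynomial.aeval x P| * (height P : ℝ) ^ w ≤ 1}.Infinite

/-- `z` is `e`, or `π`, or the logarithm of a positive rational number `q ≠ 1`, or any transcendental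
real number which is not a U-number -/
def Admissible (z : ℝ) : Prop :=
  z = Real.exp 1 ∨ z = Real.pi ∨ (∃ q : ℚ, 0 < q ∧ q ≠ 1 ∧ z = Real.log q) ∨
    (Transcendental ℚ z ∧ ¬ UNumber z)

/-- the numbers `x 0, …, x (r - 1)` are algebraic over `ℚ(z)` and together with `1` linearly
independent over `ℚ` -/
def Family (z : ℝ) {r : ℕ} (x : Fin r → ℝ) : Prop :=
  (∀ i, AlgebraicOver z (x i)) ∧
    ∀ (m : ℤ) (g : Fin r → ℤ), (m : ℝ) + ∑ i, (g i : ℝ) * x i = 0 → g = 0

/-- the number of the bases `b` with `1 ≤ b ≤ B` in the set `S` -/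
noncomputable def count (B : ℕ) (S : Set ℕ) : ℕ := {b : ℕ | 0 < b ∧ b ≤ B ∧ b ∈ S}.ncard

/-- the form number `i`: `(∑ A i k * t k + ∑ A i l * x l + c i) / m i` -/
noncomputable def form {n r : ℕ} (A : Matrix (Fin n ⊕ Fin r) (Fin n ⊕ Fin r) ℤ)
    (c m : Fin n ⊕ Fin r → ℤ) (t : Fin n → ℝ) (x : Fin r → ℝ) (i : Fin n ⊕ Fin r) : ℝ :=
  (∑ k, (A i (Sum.inl k) : ℝ) * t k + ∑ l, (A i (Sum.inr l) : ℝ) * x l + c i) / m i

/-- the bases `b` with the following property: for SOME real numbers `t 1, …, t n` and SOME `n + r`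
forms `(∑ A i k * t k + ∑ A i l * x l + c i) / m i` with `det A ≠ 0`, `|A i k| ≤ H`, `1 ≤ m i ≤ H`
and any integers `c i`, the words of the classes of the digits of the forms at the places
`2, …, K + 1` are those of an array `w` in the set `W` -/
def described {n r K q : ℕ} (x : Fin r → ℝ) (H : ℕ) (W : Set (Fin n ⊕ Fin r → Fin K → Fin q)) :
    Set ℕ :=
  {b | ∃ (t : Fin n → ℝ) (A : Matrix (Fin n ⊕ Fin r) (Fin n ⊕ Fin r) ℤ) (c m : Fin n ⊕ Fin r → ℤ),
    A.det ≠ 0 ∧ (∀ i j, |A i j| ≤ H) ∧ (∀ i, 1 ≤ m i ∧ m i ≤ H) ∧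
      ∃ w ∈ W, ∀ i, HasWord b (form A c m t x i) (w i)}

/-- There is `δ > 0` such that:

(1) For all `n` and `r` there is `C` such that for all real numbers `x 1, …, x r` which are algebraic
over `ℚ(z)`, `z` admissible (for instance `z = e`), and linearly independent over `ℚ` together with
`1`, and for all large `B`, all `1 ≤ K ≤ (log B) ^ δ`, `1 ≤ q ≤ exp ((log B) ^ δ)`, `H ≥ 1` and every
set `W` of arrays: the proportion of the bases `b ≤ B` for which, for some real `t 1, …, t n`, some
independent forms of height at most `H` in the `t k` and `x l` are described by an array in `W` is at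
most `(C H) ^ (C K) |W| / q ^ (r K) + 2 exp (-√(log B))`.

(2) The case of `t + z` and `t - z`, for instance `π + e` and `π - e`: for every `ε > 0` there is
`q₀` such that for all large `B`, `1 ≤ K ≤ (log B) ^ δ`, `q₀ ≤ q ≤ exp ((log B) ^ δ)` and all sets
`U`, `V` of words with `|U| |V| ≤ q ^ ((1 - ε) K)`, the bases `b ≤ B` for which, for some real `t`,
the word of `t + z` is in `U` and the word of `t - z` is in `V` are at most
`B (q ^ (-ε K / 2) + 2 exp (-√(log B)))` in number. -/
theorem result : ∃ δ : ℝ, 0 < δ ∧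
    (∀ n r : ℕ, ∃ C : ℕ, ∀ z : ℝ, Admissible z → ∀ x : Fin r → ℝ, Family z x →
      ∀ᶠ B : ℕ in atTop, ∀ K q H : ℕ, 1 ≤ K → 1 ≤ q → 1 ≤ H → (K : ℝ) ≤ Real.log B ^ δ →
        (q : ℝ) ≤ Real.exp (Real.log B ^ δ) → ∀ W : Set (Fin n ⊕ Fin r → Fin K → Fin q),
          (count B (described x H W) : ℝ) ≤
            B * (((C * H : ℕ) : ℝ) ^ (C * K) * W.ncard / (q : ℝ) ^ (r * K) +
              2 * Real.exp (-Real.sqrt (Real.log B)))) ∧
    (∀ z : ℝ, Admissible z → ∀ ε : ℝ, 0 < ε → ∃ q₀ : ℕ, ∀ᶠ B : ℕ in atTop, ∀ K q : ℕ,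
      1 ≤ K → q₀ ≤ q → (K : ℝ) ≤ Real.log B ^ δ → (q : ℝ) ≤ Real.exp (Real.log B ^ δ) →
        ∀ U V : Set (Fin K → Fin q), (U.ncard : ℝ) * V.ncard ≤ (q : ℝ) ^ ((1 - ε) * K) →
          (count B {b | ∃ t : ℝ, (∃ u ∈ U, HasWord b (t + z) u) ∧ ∃ v ∈ V, HasWord b (t - z) v} : ℝ) ≤
            B * ((q : ℝ) ^ (-(ε / 2) * K) + 2 * Real.exp (-Real.sqrt (Real.log B)))) := by
  obtain ⟨δ, hδ, h⟩ := Run7.h683.PE.main_bound
  refine ⟨δ, hδ, fun n r => ?_, fun z hz ε hε => ?_⟩
  · obtain ⟨C, hC⟩ := h n r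
    exact ⟨C, fun z hz x hx =>
      hC x (Run7.h683.AB.meas_alg (Run7.h683.AB.mt_cases hz) x hx.1 hx.2)⟩
  · obtain ⟨C, hC⟩ := h 1 1
    have hm := Run7.h683.AB.mt_cases hz
    have hf := Run7.h683.PE.single_family (Run7.h683.AB.transc_of_mt hm)
    exact Run7.h683.PE.pair_bound (hC (fun _ => z) (Run7.h683.AB.meas_alg hm _ hf.1 hf.2)) ε hε

end Pool.Agent.Results.MP_363d4d_nt.IncompressibleInRandomBases
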